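import Pool.Agent.Q73.SO.Stm

/-!
# Project SO of helper73, job SO-16 (DENS): from Schwartz data to `L²` data
-/

set_option autoImplicit false
set_option linter.unusedSectionVars false
set_option linter.unusedVariables false

open MeasureTheory Filter Topology Complex
open scoped ContDiff FourierTransform SchwartzMap ComplexConjugate

namespace Pool.Agent.Q149.SO

open Pool.Agent.Q73.SO

variable {d : ℕ}

/-- the space `L²` -/
noncomputable abbrev LL (d : ℕ) := Lp ℂ 2 (volume : Measure (E d))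

theorem nsq (f : LL d) : ‖f‖ ^ 2 = ∫ y, ‖(f : E d → ℂ) y‖ ^ 2 := by
  have h1 : RCLike.re (inner ℂ f f : ℂ) = ‖f‖ ^ 2 := inner_self_eq_norm_sq f
  rw [← h1, L2.inner_def, ← integral_re (L2.integrable_inner (𝕜 := ℂ) f f)]
  refine integral_congr_ae (Eventually.of_forall fun y => ?_)
  exact inner_self_eq_norm_sq (𝕜 := ℂ) ((f : E d → ℂ) y)

theorem int_sq (f : LL d) : Integrable (fun y => ‖(f : E d → ℂ) y‖ ^ 2) volume :=
  (Lp.memLp f).integrable_norm_pow (by norm_num)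

/-- multiplication by a bounded continuous function -/
theorem mul_mem {b : E d → ℝ} (hb : Continuous b) (hb1 : ∀ x, |b x| ≤ 1) (g : LL d) :
    MemLp (fun y => (b y : ℂ) * (g : E d → ℂ) y) 2 volume := by
  refine (Lp.memLp g).of_le ?_ (Eventually.of_forall fun y => ?_)
  · exact (continuous_ofReal.comp hb).aestronglyMeasurable.mul (Lp.aestronglyMeasurable g)
  · rw [norm_mul, Complex.norm_real, Real.norm_eq_abs]
    exact mul_le_of_le_one_left (norm_nonneg _) (hb1 y)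

/-- the product -/
noncomputable def mb {b : E d → ℝ} (hb : Continuous b) (hb1 : ∀ x, |b x| ≤ 1) (g : LL d) : LL d :=
  (mul_mem hb hb1 g).toLp _

theorem mb_coe {b : E d → ℝ} (hb : Continuous b) (hb1 : ∀ x, |b x| ≤ 1) (g : LL d) :
    (mb hb hb1 g : E d → ℂ) =ᵐ[volume] fun y => (b y : ℂ) * (g : E d → ℂ) y :=
  (mul_mem hb hb1 g).coeFn_toLp

theorem mb_sub {b : E d → ℝ} (hb : Continuous b) (hb1 : ∀ x, |b x| ≤ 1) (g h : LL d) :
    mb hb hb1 g - mb hb hb1 h = mb hb hb1 (g - h) := by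
  apply Lp.ext
  filter_upwards [Lp.coeFn_sub (mb hb hb1 g) (mb hb hb1 h), mb_coe hb hb1 g, mb_coe hb hb1 h,
    mb_coe hb hb1 (g - h), Lp.coeFn_sub g h] with y h1 h2 h3 h4 h5
  rw [h1, Pi.sub_apply, h2, h3, h4, h5, Pi.sub_apply, mul_sub]

theorem mb_norm {b : E d → ℝ} (hb : Continuous b) (hb1 : ∀ x, |b x| ≤ 1) (g : LL d) :
    ‖mb hb hb1 g‖ ≤ ‖g‖ := by
  refine Lp.norm_le_norm_of_ae_le ?_
  filter_upwards [mb_coe hb hb1 g] with y h1
  rw [h1, norm_mul, Complex.norm_real, Real.norm_eq_abs]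
  exact mul_le_of_le_one_left (norm_nonneg _) (hb1 y)

theorem mb_sq {b : E d → ℝ} (hb : Continuous b) (hb1 : ∀ x, |b x| ≤ 1) (g : LL d) :
    ‖mb hb hb1 g‖ ^ 2 = ∫ y, (b y) ^ 2 * ‖(g : E d → ℂ) y‖ ^ 2 := by
  rw [nsq]
  refine integral_congr_ae ?_
  filter_upwards [mb_coe hb hb1 g] with y h1
  rw [h1, norm_mul, Complex.norm_real, mul_pow, Real.norm_eq_abs, sq_abs]

theorem mb_cont {b : E d → ℝ} (hb : Continuous b) (hb1 : ∀ x, |b x| ≤ 1) :
    Continuous (mb hb hb1) := by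
  have h1 : LipschitzWith 1 (mb hb hb1) := by
    refine LipschitzWith.of_dist_le_mul fun x y => ?_
    rw [dist_eq_norm, dist_eq_norm, mb_sub, NNReal.coe_one, one_mul]
    exact mb_norm hb hb1 _
  exact h1.continuous

/-- the Schroedinger orbits -/
def Orb (u : ℝ → LL d) : Prop := ∀ t, ((𝓕 (u t) : LL d) : E d → ℂ) =ᵐ[volume]
  fun ξ => sym t ξ * ((𝓕 (u 0) : LL d) : E d → ℂ) ξ

theorem sym_norm (t : ℝ) (ξ : E d) : ‖sym t ξ‖ = 1 := by
  unfold sym
  exact Complex.norm_exp_ofReal_mul_I _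

theorem sym_cont (ξ : E d) : Continuous fun t : ℝ => sym t ξ := by
  unfold sym
  fun_prop

theorem sym_contξ (t : ℝ) : Continuous fun ξ : E d => sym t ξ := by
  unfold sym
  fun_prop

theorem Orb.norm {u : ℝ → LL d} (h : Orb u) (t : ℝ) : ‖u t‖ = ‖u 0‖ := by
  rw [← Lp.norm_fourier_eq (u t), ← Lp.norm_fourier_eq (u 0)]
  apply le_antisymm
  · refine Lp.norm_le_norm_of_ae_le ?_
    filter_upwards [h t] with y h1
    rw [h1, norm_mul, sym_norm, one_mul]
  · refine Lp.norm_le_norm_of_ae_le ?_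
    filter_upwards [h t] with y h1
    rw [h1, norm_mul, sym_norm, one_mul]

theorem four_sub (f g : LL d) : 𝓕 (f - g) = 𝓕 f - 𝓕 g :=
  (Lp.fourierTransformₗᵢ (E d) ℂ).map_sub f g

theorem Orb.sub {u v : ℝ → LL d} (hu : Orb u) (hv : Orb v) : Orb fun t => u t - v t := by
  intro t
  change ((𝓕 (u t - v t) : LL d) : E d → ℂ) =ᵐ[volume]
    fun ξ => sym t ξ * ((𝓕 (u 0 - v 0) : LL d) : E d → ℂ) ξ
  rw [four_sub, four_sub]
  filter_upwards [hu t, hv t, Lp.coeFn_sub (𝓕 (u t)) (𝓕 (v t)),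
    Lp.coeFn_sub (𝓕 (u 0)) (𝓕 (v 0))] with y h1 h2 h3 h4
  rw [h3, h4, Pi.sub_apply, Pi.sub_apply, h1, h2, mul_sub]

theorem Orb.cont {u : ℝ → LL d} (h : Orb u) : Continuous u := by
  rw [continuous_iff_continuousAt]
  intro s
  rw [ContinuousAt, tendsto_iff_norm_sub_tendsto_zero]
  have h1 : ∀ t, ‖u t - u s‖ ^ 2 = ∫ ξ, ‖(sym t ξ - sym s ξ) * ((𝓕 (u 0) : LL d) : E d → ℂ) ξ‖ ^ 2 := by
    intro t
    rw [← Lp.norm_fourier_eq (u t - u s), four_sub, nsq]
    refine integral_congr_ae ?_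
    filter_upwards [h t, h s, Lp.coeFn_sub (𝓕 (u t)) (𝓕 (u s))] with y h1 h2 h3
    rw [h3, Pi.sub_apply, h1, h2, sub_mul]
  have h2 : Tendsto (fun t => ∫ ξ, ‖(sym t ξ - sym s ξ) * ((𝓕 (u 0) : LL d) : E d → ℂ) ξ‖ ^ 2)
      (𝓝 s) (𝓝 (∫ ξ : E d, (0 : ℝ))) := by
    refine tendsto_integral_filter_of_dominated_convergence
      (fun ξ => 4 * ‖((𝓕 (u 0) : LL d) : E d → ℂ) ξ‖ ^ 2) ?_ ?_ ?_ ?_
    · refine Eventually.of_forall fun t => ?_
      exact ((((sym_contξ t).sub (sym_contξ s)).aestronglyMeasurable.mul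
        (Lp.aestronglyMeasurable _)).norm.pow 2)
    · refine Eventually.of_forall fun t => Eventually.of_forall fun ξ => ?_
      rw [Real.norm_eq_abs, abs_of_nonneg (by positivity), norm_mul, mul_pow]
      refine mul_le_mul_of_nonneg_right ?_ (by positivity)
      have h3 : ‖sym t ξ - sym s ξ‖ ≤ 2 := by
        refine (norm_sub_le _ _).trans ?_
        rw [sym_norm, sym_norm]
        norm_num
      have h4 := norm_nonneg (sym t ξ - sym s ξ)
      nlinarith
    · exact (int_sq _).const_mul 4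
    · refine Eventually.of_forall fun ξ => ?_
      have h3 : Continuous fun t : ℝ => ‖(sym t ξ - sym s ξ) *
          ((𝓕 (u 0) : LL d) : E d → ℂ) ξ‖ ^ 2 :=
        ((((sym_cont ξ).sub continuous_const).mul continuous_const).norm).pow 2
      have h4 := h3.tendsto s
      simpa using h4
  rw [integral_zero] at h2
  have h3 : Tendsto (fun t => Real.sqrt (‖u t - u s‖ ^ 2)) (𝓝 s) (𝓝 (Real.sqrt 0)) := by
    refine (Real.continuous_sqrt.tendsto 0).comp ?_
    refine h2.congr fun t => (h1 t).symm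
  rw [Real.sqrt_zero] at h3
  refine h3.congr fun t => ?_
  rw [Real.sqrt_sq (norm_nonneg _)]

theorem orb_schwartz (hU : S_U) (f : 𝓢(E d, ℂ)) : Orb fun t => (U t f).toLp 2 volume := by
  obtain ⟨-, -, hF, -⟩ := hU d
  intro t
  change ((𝓕 ((U t f).toLp 2 volume) : LL d) : E d → ℂ) =ᵐ[volume]
    fun ξ => sym t ξ * ((𝓕 ((U 0 f).toLp 2 volume) : LL d) : E d → ℂ) ξ
  rw [SchwartzMap.toLp_fourier_eq, SchwartzMap.toLp_fourier_eq]
  filter_upwards [(𝓕 (U t f)).coeFn_toLp 2 volume, (𝓕 (U 0 f)).coeFn_toLp 2 volume] with ξ h1 h2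
  rw [h1, h2, hF, hF]
  have h3 : sym 0 ξ = 1 := by
    unfold sym
    simp
  rw [h3, one_mul]

theorem U_zero (hU : S_U) (f : 𝓢(E d, ℂ)) : ‖(U 0 f).toLp 2 volume - (f.toLp 2 volume : LL d)‖ = 0 := by
  obtain ⟨-, -, hF, -⟩ := hU d
  have h1 : 𝓕 (U 0 f) = 𝓕 f := by
    ext ξ
    rw [hF]
    have h3 : sym 0 ξ = 1 := by
      unfold sym
      simp
    rw [h3, one_mul]
  have h2 : ((U 0 f).toLp 2 volume : LL d) = f.toLp 2 volume := by
    apply (Lp.fourierTransformₗᵢ (E d) ℂ).injective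
    change 𝓕 ((U 0 f).toLp 2 volume) = 𝓕 (f.toLp 2 volume)
    rw [SchwartzMap.toLp_fourier_eq, SchwartzMap.toLp_fourier_eq, h1]
  rw [h2, sub_self, norm_zero]

theorem t_DENS : S_DENS := by
  intro hU d T C a a' hT hC ha' hac ha haa h u hu
  have hO : Orb u := hu
  have hb : Continuous a' := ha'.smooth.continuous
  have hb1 : ∀ x, |a' x| ≤ 1 := fun x => by
    rw [abs_of_nonneg (ha'.nonneg x)]
    exact ha'.le_one x
  have ha1 : ∀ x, |a x| ≤ 1 := fun x => by
    rw [abs_of_nonneg (ha x).1]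
    exact (ha x).2
  have hucont : Continuous u := hO.cont
  have hBc : Continuous fun t => ‖mb hb hb1 (u t)‖ ^ 2 :=
    (((mb_cont hb hb1).comp hucont).norm).pow 2
  have hAc : Continuous fun t => ‖mb hac ha1 (u t)‖ ^ 2 :=
    (((mb_cont hac ha1).comp hucont).norm).pow 2
  set N : ℝ := ‖u 0‖ with hN
  have hN0 : 0 ≤ N := norm_nonneg _
  set J : ℝ := ∫ t in (0 : ℝ)..T, ‖mb hb hb1 (u t)‖ ^ 2 with hJ
  -- the inequality for `a'`
  have hmain : ∀ ε : ℝ, 0 < ε → ε ≤ 1 →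
      N ^ 2 ≤ C * J + (C * T * (2 * N + 1) + 2 * N + 3) * ε := by
    intro ε hε hε1
    obtain ⟨f, hf⟩ := (SchwartzMap.denseRange_toLpCLM (E := E d) (F := ℂ) (p := 2)
      (μ := volume) ENNReal.ofNat_ne_top).exists_dist_lt (u 0) hε
    have hf' : ‖u 0 - (f.toLp 2 volume : LL d)‖ < ε := by
      rw [← dist_eq_norm]
      exact hf
    have hv := orb_schwartz hU f
    set v : ℝ → LL d := fun t => (U t f).toLp 2 volume with hvdef
    have hd : ∀ t, ‖u t - v t‖ ≤ ε := by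
      intro t
      rw [(hO.sub hv).norm t]
      have h1 : ‖u 0 - v 0‖ ≤ ‖u 0 - (f.toLp 2 volume : LL d)‖ + ‖(f.toLp 2 volume : LL d) - v 0‖ := by
        have := norm_add_le (u 0 - (f.toLp 2 volume : LL d)) ((f.toLp 2 volume : LL d) - v 0)
        rwa [sub_add_sub_cancel] at this
      have h2 : ‖(f.toLp 2 volume : LL d) - v 0‖ = 0 := by
        rw [norm_sub_rev]
        exact U_zero hU f
      rw [h2, add_zero] at h1
      exact h1.trans hf'.le
    have hvc : Continuous fun t => ‖mb hb hb1 (v t)‖ ^ 2 :=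
      (((mb_cont hb hb1).comp hv.cont).norm).pow 2
    -- the hypothesis for `f`
    have h1 := h f
    have h2 : ∫ y, ‖f y‖ ^ 2 = ‖(f.toLp 2 volume : LL d)‖ ^ 2 := by
      rw [nsq]
      refine integral_congr_ae ?_
      filter_upwards [f.coeFn_toLp 2 volume] with y hy
      rw [hy]
    have h3 : ∀ t, ∫ y, ‖(a' y : ℂ) * U t f y‖ ^ 2 = ‖mb hb hb1 (v t)‖ ^ 2 := by
      intro t
      rw [mb_sq]
      refine integral_congr_ae ?_
      filter_upwards [(U t f).coeFn_toLp 2 volume] with y hy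
      rw [hvdef]
      change ‖(a' y : ℂ) * U t f y‖ ^ 2 = a' y ^ 2 * ‖((U t f).toLp 2 volume : LL d) y‖ ^ 2
      rw [hy, norm_mul, Complex.norm_real, mul_pow, Real.norm_eq_abs, sq_abs]
    simp only [h3] at h1
    rw [h2] at h1
    -- comparison of the observations
    have h4 : ∫ t in (0 : ℝ)..T, ‖mb hb hb1 (v t)‖ ^ 2 ≤
        ∫ t in (0 : ℝ)..T, (‖mb hb hb1 (u t)‖ ^ 2 + (2 * N + 1) * ε) := by
      refine intervalIntegral.integral_mono_on hT.le (hvc.intervalIntegrable _ _)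
        ((hBc.add continuous_const).intervalIntegrable _ _) fun t _ => ?_
      have h5 : ‖mb hb hb1 (v t)‖ ≤ ‖mb hb hb1 (u t)‖ + ε := by
        have h6 : ‖mb hb hb1 (v t)‖ ≤ ‖mb hb hb1 (u t)‖ + ‖mb hb hb1 (v t) - mb hb hb1 (u t)‖ := by
          have := norm_add_le (mb hb hb1 (u t)) (mb hb hb1 (v t) - mb hb hb1 (u t))
          rwa [add_sub_cancel] at this
        have h7 : ‖mb hb hb1 (v t) - mb hb hb1 (u t)‖ ≤ ε := by
          rw [mb_sub]
          refine (mb_norm hb hb1 _).trans ?_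
          rw [norm_sub_rev]
          exact hd t
        linarith
      have h8 : ‖mb hb hb1 (u t)‖ ≤ N := by
        rw [hN, ← hO.norm t]
        exact mb_norm hb hb1 _
      have h9 := norm_nonneg (mb hb hb1 (v t))
      have h10 := norm_nonneg (mb hb hb1 (u t))
      nlinarith
    rw [intervalIntegral.integral_add (hBc.intervalIntegrable _ _)
      (continuous_const.intervalIntegrable _ _), intervalIntegral.integral_const, sub_zero,
      smul_eq_mul, ← hJ] at h4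
    have h5 : ‖(f.toLp 2 volume : LL d)‖ ^ 2 ≤ C * (J + T * ((2 * N + 1) * ε)) :=
      h1.trans (mul_le_mul_of_nonneg_left h4 hC.le)
    have h6 : N ≤ ‖(f.toLp 2 volume : LL d)‖ + ε := by
      have := norm_add_le (f.toLp 2 volume : LL d) (u 0 - (f.toLp 2 volume : LL d))
      rw [add_sub_cancel] at this
      linarith
    have h7 : ‖(f.toLp 2 volume : LL d)‖ ≤ N + ε := by
      have := norm_sub_le (u 0) (u 0 - (f.toLp 2 volume : LL d))
      rw [sub_sub_cancel] at this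
      linarith
    have h8 := norm_nonneg (f.toLp 2 volume : LL d)
    nlinarith
  have hlim : N ^ 2 ≤ C * J := by
    by_contra hcon
    push Not at hcon
    set K : ℝ := C * T * (2 * N + 1) + 2 * N + 3 with hK
    have hK0 : 0 < K := by positivity
    set δ : ℝ := N ^ 2 - C * J with hδ
    have hδ0 : 0 < δ := by linarith
    have h1 := hmain (min 1 (δ / (2 * K))) (by positivity) (min_le_left _ _)
    have h2 : K * min 1 (δ / (2 * K)) ≤ δ / 2 := by
      calc K * min 1 (δ / (2 * K)) ≤ K * (δ / (2 * K)) :=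
            mul_le_mul_of_nonneg_left (min_le_right _ _) hK0.le
        _ = δ / 2 := by field_simp
    linarith
  refine hlim.trans (mul_le_mul_of_nonneg_left ?_ hC.le)
  have h9 : ∀ t, ∫ y, (a y) ^ 2 * ‖(u t : E d → ℂ) y‖ ^ 2 = ‖mb hac ha1 (u t)‖ ^ 2 := fun t =>
    (mb_sq hac ha1 (u t)).symm
  simp only [h9]
  rw [hJ]
  refine intervalIntegral.integral_mono_on hT.le (hBc.intervalIntegrable _ _)
    (hAc.intervalIntegrable _ _) fun t _ => ?_
  refine pow_le_pow_left₀ (norm_nonneg _) ?_ 2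
  refine Lp.norm_le_norm_of_ae_le ?_
  filter_upwards [mb_coe hb hb1 (u t), mb_coe hac ha1 (u t)] with y h1 h2
  rw [h1, h2, norm_mul, norm_mul, Complex.norm_real, Complex.norm_real, Real.norm_eq_abs,
    Real.norm_eq_abs, abs_of_nonneg (ha'.nonneg y), abs_of_nonneg (ha y).1]
  exact mul_le_mul_of_nonneg_right (haa y) (norm_nonneg _)

end Pool.Agent.Q149.SO
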