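import Pool.Agent.Q73.SO.Stm

/-!
# Project SO of helper73, job SO-15 (FIN): from the weighted sup to `L²`
-/

set_option autoImplicit false
set_option linter.unusedSectionVars false
set_option linter.unusedVariables false

open MeasureTheory Filter Topology Complex
open scoped ContDiff Convolution SchwartzMap

namespace Pool.Agent.Q149.SO

open Pool.Agent.Q73.SO

variable {d : ℕ}

theorem obs_nonneg {T : ℝ} (hT : 0 < T) (a : E d → ℝ) (p q : E d) (v : 𝓢(E d, ℂ)) (x k : E d) :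
    0 ≤ obs T a p q v x k := by
  unfold obs
  exact intervalIntegral.integral_nonneg hT.le fun t _ => by positivity

theorem one_le_wn (n : ℕ) (x k : E d) : 1 ≤ wn n x k := by
  unfold wn
  have h1 : 0 ≤ (‖x‖ + ‖k‖) / n := by positivity
  linarith

theorem one_le_nz (x k : E d) : 1 ≤ nz x k := by
  unfold nz
  have h1 := norm_nonneg x
  have h2 := norm_nonneg k
  linarith

theorem wn_zero (n : ℕ) : wn n (0 : E d) 0 = 1 := by
  unfold wn
  simp

theorem wn_cont (n : ℕ) : Continuous fun z : E d × E d => wn n z.1 z.2 := by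
  unfold wn
  fun_prop

theorem nz_cont (x k : E d) : Continuous fun z : E d × E d => nz (z.1 - x) (z.2 - k) := by
  unfold nz
  fun_prop

theorem wn_neg (n : ℕ) (x k : E d) : wn n (-x) (-k) = wn n x k := by
  unfold wn
  rw [norm_neg, norm_neg]

/-- `wn (z'' - z₀) ≤ wn (z - z₀) * nz (z'' - z)` -/
theorem wn_le {n : ℕ} (hn : 0 < n) (x k x' k' x0 k0 : E d) :
    wn n (x' - x0) (k' - k0) ≤ wn n (x - x0) (k - k0) * nz (x' - x) (k' - k) := by
  have hn1 : (1 : ℝ) ≤ n := by exact_mod_cast hn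
  have hn0 : (0 : ℝ) < n := by positivity
  have h1 : ‖x' - x0‖ ≤ ‖x' - x‖ + ‖x - x0‖ := by
    have := norm_add_le (x' - x) (x - x0)
    rwa [sub_add_sub_cancel] at this
  have h2 : ‖k' - k0‖ ≤ ‖k' - k‖ + ‖k - k0‖ := by
    have := norm_add_le (k' - k) (k - k0)
    rwa [sub_add_sub_cancel] at this
  have h3 : wn n (x' - x0) (k' - k0) ≤ wn n (x - x0) (k - k0) + (‖x' - x‖ + ‖k' - k‖) := by
    unfold wn
    have h4 : (‖x' - x0‖ + ‖k' - k0‖) / n ≤
        (‖x - x0‖ + ‖k - k0‖) / n + (‖x' - x‖ + ‖k' - k‖) / n := by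
      rw [← add_div]
      apply div_le_div_of_nonneg_right _ hn0.le
      linarith
    have h5 : (‖x' - x‖ + ‖k' - k‖) / n ≤ ‖x' - x‖ + ‖k' - k‖ := div_le_self (by positivity) hn1
    linarith
  have h6 := one_le_wn n (x - x0) (k - k0)
  have h7 : nz (x' - x) (k' - k) = 1 + (‖x' - x‖ + ‖k' - k‖) := by
    unfold nz
    ring
  rw [h7]
  have h8 : 0 ≤ ‖x' - x‖ + ‖k' - k‖ := by positivity
  nlinarith

/-- integrability of the weight -/
theorem wn_int {n : ℕ} (hn : 0 < n) :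
    Integrable (fun z : E d × E d => (wn n z.1 z.2 ^ (2 * (d + 1)))⁻¹) (volume.prod volume) := by
  have hn0 : (0 : ℝ) < n := by exact_mod_cast hn
  have hn1 : (1 : ℝ) ≤ n := by exact_mod_cast hn
  have hfr : (Module.finrank ℝ (E d × E d) : ℝ) < (2 * (d + 1) : ℕ) := by
    have h1 : Module.finrank ℝ (E d × E d) = d + d := by
      rw [Module.finrank_prod]
      simp
    rw [h1]
    exact_mod_cast (by omega : d + d < 2 * (d + 1))
  have h2 := integrable_one_add_norm (E := E d × E d) (μ := (volume.prod volume)) hfr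
  refine ((h2.const_mul ((n : ℝ) ^ (2 * (d + 1))))).mono' ?_ (Eventually.of_forall fun z => ?_)
  · refine Continuous.aestronglyMeasurable ?_
    exact ((wn_cont n).pow _).inv₀ fun z =>
      pow_ne_zero _ (zero_lt_one.trans_le (one_le_wn n z.1 z.2)).ne'
  · have h3 := one_le_wn n z.1 z.2
    have h4 : (0 : ℝ) < 1 + ‖z‖ := by positivity
    have h5 : 1 + ‖z‖ ≤ n * wn n z.1 z.2 := by
      have h6 : ‖z‖ ≤ ‖z.1‖ + ‖z.2‖ := by
        rw [Prod.norm_def]
        exact max_le (by linarith [norm_nonneg z.2]) (by linarith [norm_nonneg z.1])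
      unfold wn
      have h7 : (n : ℝ) * (1 + (‖z.1‖ + ‖z.2‖) / n) = n + (‖z.1‖ + ‖z.2‖) := by
        field_simp
      rw [h7]
      linarith
    have h8 : (1 + ‖z‖) ^ (2 * (d + 1)) ≤ (n : ℝ) ^ (2 * (d + 1)) * wn n z.1 z.2 ^ (2 * (d + 1)) := by
      rw [← mul_pow]
      exact pow_le_pow_left₀ h4.le h5 _
    have h9 : (0 : ℝ) < wn n z.1 z.2 ^ (2 * (d + 1)) := by positivity
    rw [Real.norm_eq_abs, abs_of_nonneg (by positivity), Real.rpow_neg h4.le, Real.rpow_natCast,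
      ← div_eq_mul_inv, inv_le_iff_one_le_mul₀ h9, div_mul_eq_mul_div,
      one_le_div (by positivity)]
    exact h8

theorem t_FIN : S_FIN := by
  intro hU hCOV hMOY hDEC hREP hCL d T L η a hT hL hη ha hRD
  obtain ⟨n, hn, hcl⟩ := hCL d (d + 1) T L η a hT hL hη ha hRD
  obtain ⟨C₁, hC₁, hrep⟩ := hREP hU hCOV hMOY hDEC d (2 * (d + 1)) T a hT ha
  obtain ⟨hcg, hmoy⟩ := hMOY d
  set w : E d × E d → ℝ := fun z => (wn n z.1 z.2 ^ (2 * (d + 1)))⁻¹ with hw
  have hwi : Integrable w (volume.prod volume) := wn_int hn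
  have hw0 : ∀ z, 0 < w z := fun z => by
    have := one_le_wn n z.1 z.2
    positivity
  have hw1 : ∀ z, w z ≤ 1 := fun z => inv_le_one_of_one_le₀ (one_le_pow₀ (one_le_wn n z.1 z.2))
  have hwc : Continuous w := ((wn_cont n).pow _).inv₀ fun z =>
    pow_ne_zero _ (zero_lt_one.trans_le (one_le_wn n z.1 z.2)).ne'
  set Iw : ℝ := ∫ z, w z ∂(volume.prod volume) with hIw
  have hIw0 : 0 ≤ Iw := integral_nonneg fun z => (hw0 z).le
  refine ⟨(n : ℝ) ^ 2 * C₁ * (Iw + 1), by positivity, fun u => ?_⟩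
  obtain ⟨hOc, hOi, hOint, hOle⟩ := hrep u
  obtain ⟨-, -, -, hVi, hVint⟩ := hmoy u u
  set O : E d × E d → ℝ := fun z => obs T a 0 0 u z.1 z.2 with hO
  have hO0 : ∀ z, 0 ≤ O z := fun z => obs_nonneg hT _ _ _ _ _ _
  have hI : ∀ b : E d × E d → ℝ, Continuous b → (∀ z, |b z| ≤ 1) →
      Integrable (fun z => O z * b z) (volume.prod volume) := by
    intro b hb hb1
    refine hOi.mono' (hOc.mul hb).aestronglyMeasurable (Eventually.of_forall fun z => ?_)
    rw [norm_mul, Real.norm_eq_abs, Real.norm_eq_abs, abs_of_nonneg (hO0 z)]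
    exact mul_le_of_le_one_right (hO0 z) (hb1 z)
  -- the pointwise bound
  have hpt : ∀ z₀ : E d × E d, ‖V u z₀.1 z₀.2‖ ^ 2 ≤
      (n : ℝ) ^ 2 * C₁ * ∫ z, O z * w (z₀ - z) ∂(volume.prod volume) := by
    intro z₀
    set J : ℝ := ∫ z, O z * w (z₀ - z) ∂(volume.prod volume) with hJ
    have hJ0 : 0 ≤ J := integral_nonneg fun z => mul_nonneg (hO0 z) (hw0 _).le
    have hS : ∀ x k, obs T a 0 0 u x k ≤ Real.sqrt (C₁ * J) ^ 2 *
        wn n (x - z₀.1) (k - z₀.2) ^ (2 * (d + 1)) := by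
      intro x k
      rw [Real.sq_sqrt (by positivity)]
      refine (hOle x k).trans ?_
      rw [mul_assoc]
      refine mul_le_mul_of_nonneg_left ?_ hC₁.le
      rw [hJ, ← integral_mul_const]
      refine integral_mono ?_ ?_ fun z => ?_
      · refine hI (fun z => (nz (z.1 - x) (z.2 - k) ^ (2 * (d + 1)))⁻¹) ?_ fun z => ?_
        · exact ((nz_cont x k).pow _).inv₀ fun z =>
            pow_ne_zero _ (zero_lt_one.trans_le (one_le_nz (z.1 - x) (z.2 - k))).ne'
        · have h1 := one_le_nz (z.1 - x) (z.2 - k)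
          rw [abs_of_nonneg (by positivity)]
          exact inv_le_one_of_one_le₀ (one_le_pow₀ h1)
      · refine (hI (fun z => w (z₀ - z)) (hwc.comp (continuous_const.sub continuous_id))
          fun z => ?_).mul_const _
        rw [abs_of_nonneg (hw0 _).le]
        exact hw1 _
      · change O z * (nz (z.1 - x) (z.2 - k) ^ (2 * (d + 1)))⁻¹ ≤
          O z * w (z₀ - z) * wn n (x - z₀.1) (k - z₀.2) ^ (2 * (d + 1))
        rw [mul_assoc]
        refine mul_le_mul_of_nonneg_left ?_ (hO0 z)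
        have h1 := wn_le hn x k z.1 z.2 z₀.1 z₀.2
        have h2 : wn n (z₀ - z).1 (z₀ - z).2 = wn n (z.1 - z₀.1) (z.2 - z₀.2) := by
          rw [Prod.fst_sub, Prod.snd_sub, ← wn_neg n (z.1 - z₀.1), neg_sub, neg_sub]
        have h3 := one_le_wn n (z.1 - z₀.1) (z.2 - z₀.2)
        have h4 := one_le_nz (z.1 - x) (z.2 - k)
        have h5 := one_le_wn n (x - z₀.1) (k - z₀.2)
        rw [hw]
        change (nz (z.1 - x) (z.2 - k) ^ (2 * (d + 1)))⁻¹ ≤
          (wn n (z₀ - z).1 (z₀ - z).2 ^ (2 * (d + 1)))⁻¹ * _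
        rw [h2, inv_mul_eq_div, inv_eq_one_div, div_le_div_iff₀ (by positivity) (by positivity),
          one_mul, ← mul_pow]
        exact pow_le_pow_left₀ (by linarith) h1 _
    have h1 := hcl u z₀.1 z₀.2 (Real.sqrt (C₁ * J)) (Real.sqrt_nonneg _) hS z₀.1 z₀.2
    rw [sub_self, sub_self, wn_zero, one_pow, mul_one] at h1
    have h2 : ‖V u z₀.1 z₀.2‖ ^ 2 ≤ (n * Real.sqrt (C₁ * J)) ^ 2 :=
      pow_le_pow_left₀ (norm_nonneg _) h1 2
    rw [mul_pow, Real.sq_sqrt (by positivity), ← mul_assoc] at h2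
    exact h2
  -- integrate
  have hconv : Integrable (O ⋆[ContinuousLinearMap.lsmul ℝ ℝ, (volume.prod volume)] w)
      (volume.prod volume) := hOi.integrable_convolution _ hwi
  have hconvI : ∫ z, (O ⋆[ContinuousLinearMap.lsmul ℝ ℝ, (volume.prod volume)] w) z
      ∂(volume.prod volume) = (∫ z, O z ∂(volume.prod volume)) * Iw := by
    rw [integral_convolution _ hOi hwi]
    rfl
  have hfin : ∫ z : E d × E d, ‖V u z.1 z.2‖ ^ 2 ∂(volume.prod volume) ≤
      (n : ℝ) ^ 2 * C₁ * ((∫ z, O z ∂(volume.prod volume)) * Iw) := by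
    rw [← hconvI, ← integral_const_mul]
    exact integral_mono hVi (hconv.const_mul _) hpt
  rw [hVint, hOint] at hfin
  set R : ℝ := ∫ t in (0 : ℝ)..T, ∫ y, ‖(a y : ℂ) * U t u y‖ ^ 2 with hR
  have hR0 : 0 ≤ R := intervalIntegral.integral_nonneg hT.le fun t _ =>
    integral_nonneg fun y => by positivity
  have h1 : cg d * ∫ y, ‖u y‖ ^ 2 ≤ cg d * ((n : ℝ) ^ 2 * C₁ * Iw * R) := by
    calc cg d * ∫ y, ‖u y‖ ^ 2 ≤ (n : ℝ) ^ 2 * C₁ * (cg d * R * Iw) := hfin
      _ = _ := by ring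
  have h2 := le_of_mul_le_mul_left h1 hcg
  refine h2.trans ?_
  refine mul_le_mul_of_nonneg_right ?_ hR0
  refine mul_le_mul_of_nonneg_left ?_ (by positivity)
  linarith

end Pool.Agent.Q149.SO
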