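import Pool.Agent.Q73.SO.Stm

/-!
# Project SO of helper73, job SO-2 (SM): smooth minorant
-/

set_option autoImplicit false
set_option linter.unusedSectionVars false
set_option linter.unusedVariables false

open MeasureTheory Filter Topology Complex
open scoped ContDiff Convolution

namespace Pool.Agent.Q149.SO

open Pool.Agent.Q73.SO (E cube RD Bd S_SM)

variable {d : ℕ}

theorem bound_conv {f : E d → ℝ} (hf : Continuous f) (hf1 : ∀ x, ‖f x‖ ≤ 1) (k : ℕ) :
    ∀ (G' F : Type) [NormedAddCommGroup G'] [NormedSpace ℝ G'] [NormedAddCommGroup F]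
      [NormedSpace ℝ F] (L : G' →L[ℝ] ℝ →L[ℝ] F) (ψ : E d → G'), HasCompactSupport ψ →
      ContDiff ℝ ∞ ψ → ∃ B : ℝ, ∀ x, ‖iteratedFDeriv ℝ k (ψ ⋆[L, volume] f) x‖ ≤ B := by
  induction k with
  | zero =>
    intro G' F _ _ _ _ L ψ hc hs
    refine ⟨∫ t, ‖L‖ * ‖ψ t‖, fun x => ?_⟩
    rw [norm_iteratedFDeriv_zero]
    have hint : Integrable (fun t => ‖L‖ * ‖ψ t‖) volume :=
      ((hs.continuous.integrable_of_hasCompactSupport hc).norm).const_mul _
    refine norm_integral_le_of_norm_le hint (Eventually.of_forall fun t => ?_)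
    refine (L.le_opNorm₂ _ _).trans ?_
    have h1 := hf1 (x - t)
    have h2 : 0 ≤ ‖L‖ * ‖ψ t‖ := by positivity
    nlinarith
  | succ k ih =>
    intro G' F _ _ _ _ L ψ hc hs
    obtain ⟨B, hB⟩ := ih (E d →L[ℝ] G') (E d →L[ℝ] F) (L.precompL (E d)) (fderiv ℝ ψ)
      (hc.fderiv ℝ) (hs.fderiv_right (m := ∞) (by simp))
    refine ⟨B, fun x => ?_⟩
    have h1 : fderiv ℝ (ψ ⋆[L, volume] f) = (fderiv ℝ ψ ⋆[L.precompL (E d), volume] f) := by
      funext x
      exact (hc.hasFDerivAt_convolution_left L (hs.of_le (by simp)) hf.locallyIntegrable x).fderiv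
    rw [← norm_iteratedFDeriv_fderiv, h1]
    exact hB x

theorem cube_eq (c : E d) (L : ℝ) : cube c L = (WithLp.ofLp : E d → (Fin d → ℝ)) ⁻¹'
    (Set.Icc (WithLp.ofLp c) (fun i => c i + L)) := by
  ext z
  simp only [cube, Set.mem_preimage, Set.mem_Icc, Pi.le_def]
  constructor
  · intro h
    exact ⟨fun i => (h i).1, fun i => (h i).2⟩
  · intro h i
    exact ⟨h.1 i, h.2 i⟩

theorem cube_meas (c : E d) (L : ℝ) : MeasurableSet (cube c L) := by
  rw [cube_eq]
  exact (PiLp.volume_preserving_ofLp (Fin d)).measurable measurableSet_Icc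

theorem cube_vol (c : E d) {L : ℝ} (hL : 0 ≤ L) : volume (cube c L) = ENNReal.ofReal (L ^ d) := by
  rw [cube_eq, (PiLp.volume_preserving_ofLp (Fin d)).measure_preimage
    measurableSet_Icc.nullMeasurableSet, Real.volume_Icc_pi]
  have h1 : ∀ i : Fin d, ENNReal.ofReal (c i + L - (WithLp.ofLp c) i) = ENNReal.ofReal L := by
    intro i
    congr 1
    change c i + L - c i = L
    ring
  rw [Finset.prod_congr rfl fun i _ => h1 i, Finset.prod_const, Finset.card_univ, Fintype.card_fin,
    ENNReal.ofReal_pow hL]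

theorem t_SM : S_SM := by
  intro d a L η hL hη hu ha hRD
  obtain ⟨δ, hδ, hd⟩ := Metric.uniformContinuous_iff.1 hu (η / 4) (by positivity)
  set f : E d → ℝ := fun x => max (a x - η / 4) 0 with hfdef
  have hac : Continuous a := hu.continuous
  have hfc : Continuous f := (hac.sub continuous_const).max continuous_const
  have hf0 : ∀ x, 0 ≤ f x := fun x => le_max_right _ _
  have hfa : ∀ x, f x ≤ a x := fun x => max_le (by linarith) (ha x).1
  have hf1 : ∀ x, f x ≤ 1 := fun x => (hfa x).trans (ha x).2
  have hfn : ∀ x, ‖f x‖ ≤ 1 := fun x => by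
    rw [Real.norm_eq_abs, abs_of_nonneg (hf0 x)]
    exact hf1 x
  have hfge : ∀ x, a x - η / 4 ≤ f x := fun x => le_max_left _ _
  let φ : ContDiffBump (0 : E d) := ⟨δ / 4, δ / 2, by positivity, by linarith⟩
  set ψ : E d → ℝ := φ.normed volume with hψ
  have hψc : HasCompactSupport ψ := φ.hasCompactSupport_normed
  have hψs : ContDiff ℝ ∞ ψ := φ.contDiff_normed
  have hψ0 : ∀ x, 0 ≤ ψ x := fun x => φ.nonneg_normed x
  have hψ1 : ∫ x, ψ x = 1 := φ.integral_normed
  have hψz : ∀ x, δ ≤ ‖x‖ → ψ x = 0 := by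
    intro x hx
    have h1 : x ∉ Function.support ψ := by
      rw [hψ, φ.support_normed_eq, Metric.mem_ball, dist_zero_right, not_lt]
      change δ / 2 ≤ ‖x‖
      linarith
    rwa [Function.notMem_support] at h1
  have hψi : Integrable ψ volume := hψs.continuous.integrable_of_hasCompactSupport hψc
  set a' : E d → ℝ := ψ ⋆[ContinuousLinearMap.lsmul ℝ ℝ, volume] f with ha'
  have ha'x : ∀ x, a' x = ∫ t, ψ t * f (x - t) := fun x => rfl
  have hint : ∀ x, Integrable (fun t => ψ t * f (x - t)) volume := by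
    intro x
    refine hψi.mono' ?_ (Eventually.of_forall fun t => ?_)
    · exact (hψs.continuous.mul (hfc.comp (continuous_const.sub continuous_id))).aestronglyMeasurable
    · rw [norm_mul, Real.norm_eq_abs, abs_of_nonneg (hψ0 t)]
      have h1 := hfn (x - t)
      have h2 := hψ0 t
      nlinarith
  have hup : ∀ x, a' x ≤ a x := by
    intro x
    rw [ha'x]
    calc ∫ t, ψ t * f (x - t) ≤ ∫ t, ψ t * a x := by
          refine integral_mono (hint x) (hψi.mul_const _) fun t => ?_
          by_cases ht : δ ≤ ‖t‖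
          · simp only [hψz t ht, zero_mul, le_refl]
          · refine mul_le_mul_of_nonneg_left ?_ (hψ0 t)
            push Not at ht
            have h1 : dist (x - t) x < δ := by
              rw [dist_eq_norm, sub_sub_cancel_left, norm_neg]
              exact ht
            have h2 := hd h1
            rw [Real.dist_eq, abs_lt] at h2
            exact max_le (by linarith) (ha x).1
      _ = a x := by
        rw [integral_mul_const, hψ1, one_mul]
  have hlo : ∀ x, a x - η / 2 ≤ a' x := by
    intro x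
    rw [ha'x]
    calc a x - η / 2 = ∫ t, ψ t * (a x - η / 2) := by
          rw [integral_mul_const, hψ1, one_mul]
      _ ≤ ∫ t, ψ t * f (x - t) := by
          refine integral_mono (hψi.mul_const _) (hint x) fun t => ?_
          by_cases ht : δ ≤ ‖t‖
          · simp only [hψz t ht, zero_mul, le_refl]
          · refine mul_le_mul_of_nonneg_left ?_ (hψ0 t)
            push Not at ht
            have h1 : dist (x - t) x < δ := by
              rw [dist_eq_norm, sub_sub_cancel_left, norm_neg]
              exact ht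
            have h2 := hd h1
            rw [Real.dist_eq, abs_lt] at h2
            have h3 := hfge (x - t)
            linarith
  have ha'0 : ∀ x, 0 ≤ a' x := fun x => by
    rw [ha'x]
    exact integral_nonneg fun t => mul_nonneg (hψ0 t) (hf0 _)
  have ha's : ContDiff ℝ ∞ a' :=
    hψc.contDiff_convolution_left _ hψs hfc.locallyIntegrable
  refine ⟨a', ⟨ha's, ha'0, fun x => (hup x).trans (ha x).2, fun k => ?_⟩, hup, fun c => ?_⟩
  · exact bound_conv hfc hfn k ℝ ℝ (ContinuousLinearMap.lsmul ℝ ℝ) ψ hψc hψs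
  · have hLd : 0 < L ^ d := by positivity
    have hvol := cube_vol c hL.le
    have hfin : volume (cube c L) ≠ ⊤ := by rw [hvol]; exact ENNReal.ofReal_ne_top
    have hreal : volume.real (cube c L) = L ^ d := by
      rw [Measure.real, hvol, ENNReal.toReal_ofReal hLd.le]
    have hbi : ∀ b : E d → ℝ, Continuous b → (∀ x, ‖b x‖ ≤ 1) → IntegrableOn b (cube c L) := by
      intro b hb hb1
      have h1 : IntegrableOn (fun _ : E d => (1 : ℝ)) (cube c L) := integrableOn_const hfin
      exact h1.mono' hb.aestronglyMeasurable (Eventually.of_forall hb1)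
    have hai := hbi a hac fun x => by
      rw [Real.norm_eq_abs, abs_of_nonneg (ha x).1]
      exact (ha x).2
    have ha'i := hbi a' ha's.continuous fun x => by
      rw [Real.norm_eq_abs, abs_of_nonneg (ha'0 x)]
      exact (hup x).trans (ha x).2
    have h2 : ∫ z in cube c L, (a z - η / 2) ≤ ∫ z in cube c L, a' z :=
      integral_mono (hai.sub (integrableOn_const hfin)) ha'i fun z => hlo z
    rw [integral_sub hai (integrableOn_const hfin), setIntegral_const, hreal, smul_eq_mul] at h2
    have h3 := hRD c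
    have h4 : L ^ d * η ≤ ∫ z in cube c L, a z := by
      calc L ^ d * η ≤ L ^ d * ((L ^ d)⁻¹ * ∫ z in cube c L, a z) :=
            mul_le_mul_of_nonneg_left h3 hLd.le
        _ = _ := by rw [← mul_assoc, mul_inv_cancel₀ hLd.ne', one_mul]
    calc η / 2 = (L ^ d)⁻¹ * (L ^ d * (η / 2)) := by
          rw [← mul_assoc, inv_mul_cancel₀ hLd.ne', one_mul]
      _ ≤ (L ^ d)⁻¹ * ∫ z in cube c L, a' z := by
        refine mul_le_mul_of_nonneg_left ?_ (by positivity)
        linarith

end Pool.Agent.Q149.SO
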